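import Pool.Agent.H91.RF.TargetsA
import Pool.Agent.H91.RF.TargetsR
import Pool.Agent.H27.RD.TBG

/-!
# MP_609556_an: module TWG, exponential decay towards the lower platform away from the ignited set

The structure of the proof is that of the module TBG of helper27.
-/

set_option autoImplicit false

open MeasureTheory Set Filter Topology Metric
open Pool.Agent.H29.TF (hk P)
open Pool.Agent.H91.RD Pool.Agent.H91.RF Pool.Agent.H73.RD Pool.Agent.H27.RD

namespace Pool.Agent.H20.RF.TWG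

/-- points outside a set which contains a ball are far from the centre of the ball -/
theorem far' {N : ℕ} {I' : Set (E N)} {x p : E N} {ρ : ℝ} (hρ : 0 ≤ ρ)
    (hin : ∀ q, dist p q ≤ ρ → q ∈ I') (hx : 0 < infDist x I') :
    infDist x I' + ρ ≤ dist x p := by
  by_contra hcon
  push Not at hcon
  rcases le_or_gt (dist x p) ρ with h | h
  · have h1 : x ∈ I' := hin x (by rwa [dist_comm])
    rw [infDist_zero_of_mem h1] at hx
    exact lt_irrefl _ hx
  · have hd : 0 < dist x p := lt_of_le_of_lt hρ h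
    set q := AffineMap.lineMap p x (ρ / dist x p) with hq
    have h1 : dist p q = ρ := by
      rw [hq, dist_left_lineMap, Real.norm_of_nonneg (by positivity), dist_comm p x]
      field_simp
    have h2 : dist x q = dist x p - ρ := by
      rw [hq, dist_right_lineMap, Real.norm_of_nonneg]
      · rw [dist_comm p x]; field_simp
      · rw [sub_nonneg, div_le_one hd]; exact h.le
    have h3 := infDist_le_dist_of_mem (x := x) (hin q h1.le)
    rw [h2] at h3
    linarith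

theorem ter_nonneg {f : ℝ → ℝ} {J : ℕ} {b c : ℕ → ℝ} {y : ℕ → ℝ → ℝ} (h : Ter f J b c y) :
    ∀ j ≤ J, 0 ≤ b j := by
  intro j
  induction j with
  | zero => intro _; rw [h.b0]
  | succ j ih =>
    intro hj
    exact (ih (by omega)).trans (h.lt j (by omega)).le

theorem ter_le_one {f : ℝ → ℝ} {J : ℕ} {b c : ℕ → ℝ} {y : ℕ → ℝ → ℝ} (h : Ter f J b c y) :
    ∀ i j, i + j = J → b i ≤ 1 := by
  intro i j
  induction j generalizing i with
  | zero => intro hj; rw [← h.bJ, ← hj]; rfl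
  | succ j ih =>
    intro hj
    exact (h.lt i (by omega)).le.trans (ih (i + 1) (by omega))

/-- the solution minus a constant -/
theorem cls_sub {N : ℕ} {f : ℝ → ℝ} {U : Set (E N)} {u : ℝ → E N → ℝ} (h : IsSol f U u)
    (hr : ∀ t > 0, ∀ x, 0 ≤ u t x ∧ u t x ≤ 1) {a0 : ℝ} (ha0 : 0 ≤ a0) (ha1 : a0 ≤ 1) :
    Cls (fun s => f (a0 + s)) (fun t x => u t x - a0) := by
  refine ⟨⟨1, fun t ht x => ?_⟩, fun t ht => (h.c2 t ht).sub contDiff_const,
    fun t ht x => (h.dt t ht x).sub_const a0, h.cont.sub continuousOn_const,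
    fun t ht x => ?_⟩
  · have := hr t ht x
    rw [abs_le]
    constructor <;> linarith
  · have e1 : deriv (fun s => u s x - a0) t = deriv (fun s => u s x) t := deriv_sub_const _
    have e2 : Laplacian.laplacian (fun x => u t x - a0) x = Laplacian.laplacian (u t) x := by
      rw [lap_sub (h.c2 t ht).contDiffAt contDiffAt_const]
      have : Laplacian.laplacian (fun _ : E N => a0) x = 0 := by
        simp [InnerProductSpace.laplacian_const]
      rw [this, sub_zero]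
    have e3 : a0 + (u t x - a0) = u t x := by ring
    rw [e1, e2, e3]
    exact h.eqn t ht x

/-- TWG. -/
theorem twg (supz : T_SUPZ) (expj : T_EXPJ) (npg : T_NPG) (gt : T_GT) (mp0 : T_MP0)
    (rad : T_RAD) : T_TWG := by
  intro N f K U u J b c y hS hT j hj h4 kk hkk1 hkk2 ε hε
  have hN := hS.N1
  have hK : 0 < K := hS.lip.K0
  -- platforms
  have ha00 : 0 ≤ b j := ter_nonneg hT j hj.le
  have hβ1 : b (j + 1) ≤ 1 := ter_le_one hT (j + 1) (J - (j + 1)) (by omega)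
  have hab : b j < b (j + 1) := hT.lt j hj
  have hfa : f (b j) = 0 := hT.zer j hj.le
  obtain ⟨δ, hδ, hδa, hδf⟩ := hT.near j hj
  obtain ⟨a0, ha0⟩ : ∃ a0 : ℝ, a0 = b j := ⟨_, rfl⟩
  obtain ⟨β, hβ⟩ : ∃ β : ℝ, β = b (j + 1) := ⟨_, rfl⟩
  -- the profile
  obtain ⟨ε1, hε1⟩ : ∃ ε1 : ℝ, ε1 = min ε (δ / 2) := ⟨_, rfl⟩
  have hε1p : 0 < ε1 := by rw [hε1]; exact lt_min hε (by positivity)
  have hε1δ : ε1 ≤ δ / 2 := by rw [hε1]; exact min_le_right _ _
  obtain ⟨c1, κ, Cx, Lm, Z2, q, hc1, hc1c, hκ, hCx, hLm, hZ2, hq2, hqβ, hqa, hqlt, hq⟩ :=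
    supz f K J b c y hS.reac hS.lip hT j hj h4 kk hkk1 hkk2 ε1 hε1p
  have hcj : 0 < c j := by linarith
  have hkk : 0 < kk := by linarith
  obtain ⟨θ, hθ⟩ : ∃ θ : ℝ, θ = q 0 - a0 := ⟨_, rfl⟩
  rw [← ha0] at ha00 hab hfa hδa hqa
  rw [← hβ] at hβ1 hab hδa hδf hqβ hqlt
  have hθ0 : 0 < θ := by linarith
  have hθ1 : θ < 1 := by linarith
  obtain ⟨F, hFd⟩ : ∃ F : ℝ → ℝ, F = fun s => f (a0 + s) := ⟨_, rfl⟩
  have hF : ∀ s t, |F s - F t| ≤ K * |s - t| := by
    intro s t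
    rw [hFd]
    have := hS.lip.lip (a0 + s) (a0 + t)
    rwa [show a0 + s - (a0 + t) = s - t by ring] at this
  have hF0 : F 0 = 0 := by rw [hFd]; simp only [add_zero]; exact hfa
  have hp : Prof F (2 * kk) θ c1 κ Cx Lm Z2 (fun z => q z - a0) := by
    have e1 : deriv (fun z => q z - a0) = deriv q := by
      funext z
      exact deriv_sub_const _
    refine ⟨hc1, by linarith, hκ, hCx, hLm, hZ2, hq2.sub contDiff_const, hθ.symm, ?_, ?_, ?_,
      ?_, ?_, ?_⟩
    · intro Z hZ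
      rw [e1]
      exact (hq Z hZ).1
    · intro Z hZ
      rw [e1, hFd]
      have := (hq Z hZ).2.1
      simpa using this
    · intro Z hZ
      rw [e1]
      exact (hq Z hZ).2.2.1
    · intro Z hZ
      rw [e1]
      exact (hq Z hZ).2.2.2.1
    · intro Z hZ
      rw [ha0]
      exact (hq Z hZ).2.2.2.2.1
    · intro Z hZ
      rw [ha0, show 2 * kk / 2 * Z = kk * Z by ring]
      exact (hq Z hZ).2.2.2.2.2
  -- the solution
  have hrng : ∀ t > 0, ∀ x, 0 ≤ u t x ∧ u t x ≤ 1 := by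
    intro t ht x
    have := hS.sol.rng t ht.le x
    unfold lift0 at this
    rwa [if_neg (not_le.2 ht)] at this
  have hcls : Cls f u :=
    ⟨hS.sol.sol.bdd, hS.sol.sol.c2, hS.sol.sol.dt, hS.sol.sol.cont, hS.sol.sol.eqn⟩
  obtain ⟨v, hvd⟩ : ∃ v : ℝ → E N → ℝ, v = fun t x => u t x - a0 := ⟨_, rfl⟩
  have hvu : ∀ t x, v t x = u t x - a0 := fun t x => by rw [hvd]
  have hv : Cls F v := by
    rw [hFd, hvd]
    exact cls_sub hS.sol.sol hrng ha00 (by linarith)
  have hvM : ∀ t > 0, ∀ x, |v t x| ≤ 1 := by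
    intro t ht x
    have := hrng t ht x
    rw [hvu, abs_le]
    constructor <;> linarith
  -- expansion
  obtain ⟨ε', hε'⟩ : ∃ ε' : ℝ, ε' = min ε (min ((c j - c1) / 2) ((β - q 0) / 2)) := ⟨_, rfl⟩
  have hε'p : 0 < ε' := by
    rw [hε']
    exact lt_min hε (lt_min (by linarith) (by linarith))
  have hε'1 : ε' ≤ ε := by rw [hε']; exact min_le_left _ _
  have hε'2 : ε' ≤ (c j - c1) / 2 := by
    rw [hε']; exact (min_le_right _ _).trans (min_le_left _ _)
  have hε'3 : ε' ≤ (β - q 0) / 2 := by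
    rw [hε']; exact (min_le_right _ _).trans (min_le_right _ _)
  obtain ⟨ℓ, L, R0, hℓ1, hℓ2, hL, hR0, hexp⟩ :=
    expj N f K J b c y hN hS.reac hS.lip hT j hj ε' hε'p
  rw [← hβ] at hℓ1 hℓ2
  obtain ⟨ct, hct⟩ : ∃ ct : ℝ, ct = c j - ε' := ⟨_, rfl⟩
  have hct1 : c1 < ct := by linarith
  have hctp : 0 < ct := by linarith
  obtain ⟨I, hI⟩ : ∃ I : ℝ → Set (E N), I = ig u ℓ R0 := ⟨_, rfl⟩
  have hD0 : ∀ t > 0, ∀ x ∈ I t, ∀ s ≥ 0, ∀ y, dist x y ≤ ct * s - L → y ∈ I (t + s) := by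
    intro t ht x hx s hs y hy
    rw [hI] at hx ⊢
    intro z hz
    refine hexp u hcls hrng t ht x R0 le_rfl (fun w hw => hx w hw) s hs z ?_
    have h1 : dist z x ≤ dist z y + dist y x := dist_triangle _ _ _
    have h2 : dist z y ≤ R0 := hz
    rw [dist_comm x y] at hy
    rw [← hct]
    linarith
  obtain ⟨D, hDp, t3, ht3, hign⟩ := hS.ignites (1 - ℓ) (by linarith) R0 hR0
  have hUI : ∀ y ∈ U, ∃ p, dist y p ≤ D ∧ ∀ t ≥ t3, p ∈ I t := by
    intro y hy
    obtain ⟨p, hp1, hp2⟩ := hign y hy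
    refine ⟨p, hp1, fun t ht => ?_⟩
    rw [hI]
    intro z hz
    have := hp2 t ht z hz
    linarith
  obtain ⟨C', hC'⟩ : ∃ C' : ℝ, C' = max 1 (max L D) := ⟨_, rfl⟩
  have hC'1 : 1 ≤ C' := by rw [hC']; exact le_max_left _ _
  have hC'L : L ≤ C' := by rw [hC']; exact (le_max_left _ _).trans (le_max_right _ _)
  have hC'D : D ≤ C' := by rw [hC']; exact (le_max_right _ _).trans (le_max_right _ _)
  have hE : Expd ct C' t3 I := by
    intro t ht s hs x hx y hy
    have hs1 : 1 ≤ √s := by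
      rw [Real.one_le_sqrt]
      linarith
    refine hD0 t (by linarith) x hx s (by linarith) y (hy.trans ?_)
    have : C' * 1 ≤ C' * √s := mul_le_mul_of_nonneg_left hs1 (by linarith)
    linarith
  have hlev : b (j + 1) - (β - ℓ) = ℓ := by rw [hβ]; ring
  obtain ⟨L0, S, T1, hL0, hSp, hT1, hbelow⟩ := npg N f K β ct (q 0) (β - ε1) U u hN hS.lip hctp
    (by linarith) (by linarith) (by linarith) hβ1
    (fun s hs1 hs2 => hδf s ⟨by linarith, hs2⟩) hS.ne hS.condC hS.sol (β - ℓ) R0 C' t3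
    (by linarith) (by linarith) hR0 hC'1 ht3
    (by rw [sub_sub_cancel, ← hI]; exact hE)
    (by
      intro y hy
      obtain ⟨p, hp1, hp2⟩ := hUI y hy
      rw [sub_sub_cancel, ← hI]
      exact ⟨p, hp2 t3 le_rfl, hp1.trans hC'D⟩)
  rw [sub_sub_cancel, ← hI] at hbelow
  have hne : ∀ t ≥ t3, (I t).Nonempty := by
    intro t ht
    obtain ⟨y, hy⟩ := hS.ne
    obtain ⟨p, -, hp⟩ := hUI y hy
    exact ⟨p, hp t ht⟩
  -- s1
  obtain ⟨s1, hs1⟩ : ∃ s1 : ℝ, s1 = max 1 (L / ct) := ⟨_, rfl⟩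
  have hs11 : 1 ≤ s1 := by rw [hs1]; exact le_max_left _ _
  have hsq : ∀ s ≥ s1, 0 ≤ ct * s - L := by
    intro s hs
    have hs2 : L / ct ≤ s := le_trans (by rw [hs1]; exact le_max_right _ _) hs
    rw [div_le_iff₀' hctp] at hs2
    linarith
  have quad : ∀ s, 0 ≤ s → c1 * s - L ≤ ct * s - L := by
    intro s hs
    have := mul_le_mul_of_nonneg_right hct1.le hs
    linarith
  have hT1p : 0 < T1 := by linarith
  obtain ⟨a, ha⟩ : ∃ a : ℝ, a = max 1 (2 * N / κ) := ⟨_, rfl⟩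
  have ha1 : 1 ≤ a := by rw [ha]; exact le_max_left _ _
  have hap : 0 < a := by linarith
  have haN : N / a ≤ κ / 2 := by
    have h1 : 2 * N / κ ≤ a := by rw [ha]; exact le_max_right _ _
    rw [div_le_iff₀ hκ] at h1
    rw [div_le_div_iff₀ hap (by norm_num)]
    linarith
  obtain ⟨A0, hA0, hT1bd⟩ := gt N f K U u hS.lip hS.sol hS.ne T1 hT1p Lm hLm
  -- L1
  obtain ⟨L1, hL1⟩ : ∃ L1 : ℝ, L1 = max 1 (D + Real.log (A0 * Cx) / Lm) := ⟨_, rfl⟩
  have hL11 : 1 ≤ L1 := by rw [hL1]; exact le_max_left _ _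
  have hL1e : A0 * Real.exp (-(Lm * (L0 + L1 - D))) ≤ Cx⁻¹ := by
    have h1 : D + Real.log (A0 * Cx) / Lm ≤ L1 := by rw [hL1]; exact le_max_right _ _
    have h2 : Real.log (A0 * Cx) ≤ Lm * (L0 + L1 - D) := by
      have h3 : Real.log (A0 * Cx) / Lm ≤ L0 + L1 - D := by linarith
      rwa [div_le_iff₀' hLm] at h3
    have h4 : A0 * Cx ≤ Real.exp (Lm * (L0 + L1 - D)) := by
      rw [← Real.exp_log (show 0 < A0 * Cx by positivity)]
      exact Real.exp_le_exp.2 h2
    have h5 := Real.exp_pos (Lm * (L0 + L1 - D))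
    rw [Real.exp_neg, ← div_eq_mul_inv, div_le_iff₀ h5]
    have h6 : A0 = A0 * Cx * Cx⁻¹ := by field_simp
    calc A0 = A0 * Cx * Cx⁻¹ := h6
      _ ≤ Real.exp (Lm * (L0 + L1 - D)) * Cx⁻¹ :=
          mul_le_mul_of_nonneg_right h4 (by positivity)
      _ = _ := mul_comm _ _
  obtain ⟨r1, hr1⟩ : ∃ r1 : ℝ, r1 = a * √(2 * Cx / κ) := ⟨_, rfl⟩
  have hr1p : 0 < r1 := by rw [hr1]; positivity
  have hr1e : ∀ z, r1 ≤ z → Cx * a ^ 2 ≤ κ / 2 * z ^ 2 := by
    intro z hz
    have h1 : r1 ^ 2 ≤ z ^ 2 := pow_le_pow_left₀ hr1p.le hz 2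
    have h2 : r1 ^ 2 = a ^ 2 * (2 * Cx / κ) := by
      rw [hr1, mul_pow, Real.sq_sqrt (by positivity)]
    rw [h2] at h1
    have h3 := mul_le_mul_of_nonneg_left h1 (show 0 ≤ κ / 2 by positivity)
    refine le_trans (le_of_eq ?_) h3
    field_simp
  obtain ⟨G0, hG0⟩ : ∃ G0 : ℝ, G0 = L + L0 + L1 + Z2 + r1 + 1 := ⟨_, rfl⟩
  have hG0p : 0 < G0 := by rw [hG0]; positivity
  obtain ⟨A', hA'⟩ : ∃ A' : ℝ, A' = Cx * Real.exp (kk * (L + L0 + L1)) := ⟨_, rfl⟩
  have hA'p : 0 < A' := by rw [hA']; positivity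
  obtain ⟨α2, hα2⟩ : ∃ α2 : ℝ, α2 = (2 * kk) ^ 2 / 4 + (2 * kk) * N / (2 * a) + K := ⟨_, rfl⟩
  have hα2p : 0 < α2 := by rw [hα2]; positivity
  obtain ⟨CT, hCT⟩ : ∃ CT : ℝ, CT = max (Real.exp (kk * G0))
    (A' * Real.exp (kk * a + α2 * (S + s1))) := ⟨_, rfl⟩
  have hCTa : Real.exp (kk * G0) ≤ CT := by rw [hCT]; exact le_max_left _ _
  have hCTb : A' * Real.exp (kk * a + α2 * (S + s1)) ≤ CT := by
    rw [hCT]; exact le_max_right _ _
  have hCT1 : 1 ≤ CT := (Real.one_le_exp (by positivity)).trans hCTa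
  rw [← ha0, ← hβ]
  refine ⟨ℓ, R0, CT, T1 + S + s1 + 1, by linarith, by linarith, hℓ2, hR0, hCT1, ?_⟩
  intro t ht
  rw [← hI]
  refine ⟨hne t (by linarith), fun x => ?_⟩
  rw [← hvu]
  have htp : 0 < t := by linarith
  obtain ⟨g, hgdef⟩ : ∃ g : ℝ, g = infDist x (I t) := ⟨_, rfl⟩
  have hg0 : 0 ≤ g := by rw [hgdef]; exact infDist_nonneg
  rw [← hgdef]
  rcases le_or_gt g G0 with hgG | hgG
  · have h1 := (abs_le.1 (hvM t htp x)).2
    calc v t x ≤ 1 := h1
      _ = Real.exp (kk * G0) * Real.exp (-(kk * G0)) := by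
          rw [← Real.exp_add, add_neg_cancel, Real.exp_zero]
      _ ≤ CT * Real.exp (-(kk * g)) := by
          refine mul_le_mul hCTa (Real.exp_le_exp.2 ?_) (Real.exp_pos _).le (by linarith)
          have := mul_le_mul_of_nonneg_left hgG hkk.le
          linarith
  have hgpos : 0 < infDist x (I t) := by rw [← hgdef]; linarith
  obtain ⟨τ1, hτ1⟩ : ∃ τ1 : ℝ, τ1 = t - S - s1 := ⟨_, rfl⟩
  have hτ1T : T1 < τ1 := by linarith
  obtain ⟨Q, hQ⟩ : ∃ Q : ℝ, Q = g + c1 * (t - S) - L - L0 - L1 := ⟨_, rfl⟩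
  have hqτ : ∀ τ, Q - c1 * τ = g + c1 * (t - S - τ) - L - L0 - L1 := by
    intro τ; rw [hQ]; ring
  -- distance estimates
  have hclose : ∀ τ ∈ Icc T1 τ1, ∀ y, ‖y - x‖ ≤ g + c1 * (t - S - τ) - L - L0 →
      v τ y ≤ θ := by
    intro τ hτ y h2
    have hs : s1 ≤ t - S - τ := by have := hτ.2; linarith
    have h0 : u τ y ≤ q 0 := by
      refine hbelow τ hτ.1 y ?_
      rw [le_infDist (hne _ (by linarith [hτ.1]))]
      intro p hp
      have h4 := far' (I' := I t) (x := x) (p := p) (hsq _ hs) (by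
          intro w hw
          have := hD0 (τ + S) (by linarith [hτ.1]) p hp (t - S - τ) (by linarith) w hw
          rwa [show τ + S + (t - S - τ) = t by ring] at this) hgpos
      rw [← hgdef] at h4
      have h5 := quad (t - S - τ) (by linarith)
      have h6 : dist x p ≤ dist x y + dist y p := dist_triangle _ _ _
      have h7 : dist x y = ‖y - x‖ := by rw [dist_comm, dist_eq_norm]
      linarith
    rw [hvu, hθ]
    linarith
  have hinit : ∀ y, g + c1 * (t - S - T1) - L - D - ‖y - x‖ ≤ infDist y U := by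
    intro y
    rw [le_infDist hS.ne]
    intro z hz
    obtain ⟨p, hzp, hp⟩ := hUI z hz
    have hs : s1 ≤ t - t3 := by linarith
    have h4 := far' (I' := I t) (x := x) (p := p) (hsq _ hs) (by
        intro w hw
        have := hD0 t3 ht3 p (hp t3 le_rfl) (t - t3) (by linarith) w hw
        rwa [show t3 + (t - t3) = t by ring] at this) hgpos
    rw [← hgdef] at h4
    have h5 := quad (t - t3) (by linarith)
    have h6 : dist x p ≤ dist x y + dist y z + dist z p := dist_triangle4 _ _ _ _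
    have h7 : dist x y = ‖y - x‖ := by rw [dist_comm, dist_eq_norm]
    have h8 : c1 * (t - S - T1) ≤ c1 * (t - t3) :=
      mul_le_mul_of_nonneg_left (by linarith) hc1.le
    linarith
  -- stage 1
  have st1 := stage1 rad mp0 hN hp hθ1 hK.le hF (fun s _ => rfl) hv le_rfl hvM (a := a) (q := Q)
    (τ0 := T1) (τ1 := τ1) x hap haN hT1p hτ1T
    (by
      intro τ hτ
      rw [hqτ]
      have h1 : 0 ≤ c1 * (t - S - τ) := mul_nonneg hc1.le (by have := hτ.2; linarith)
      have h2 : r1 ≤ g + c1 * (t - S - τ) - L - L0 - L1 - Z2 := by linarith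
      exact ⟨by linarith, hr1e _ h2⟩)
    (by
      intro τ hτ y hZ
      rw [hqτ] at hZ ⊢
      have hτp : 0 < τ := by linarith [hτ.1]
      have hnr := norm_le_rad a x y
      rcases le_or_gt ‖y - x‖ (g + c1 * (t - S - τ) - L - L0) with h2 | h2
      · have h3 := hclose τ hτ y h2
        linarith
      · have h3 := (abs_le.1 (hvM τ hτp y)).2
        linarith)
    (by
      intro y hZ
      rw [hqτ] at hZ ⊢
      obtain ⟨Z, hZe⟩ : ∃ Z : ℝ, Z = g + c1 * (t - S - T1) - L - L0 - L1 -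
        √(a ^ 2 + ‖y - x‖ ^ 2) := ⟨_, rfl⟩
      rw [← hZe] at hZ ⊢
      refine le_trans ?_ (hp.low Z hZ)
      have hnr := norm_le_rad a x y
      have h1 : Z + (L0 + L1 - D) ≤ infDist y U := by
        have := hinit y
        linarith
      have h2 : v T1 y ≤ A0 * Real.exp (-(Lm * infDist y U)) := by
        have := hT1bd y
        rw [hvu]
        linarith
      refine h2.trans ?_
      calc A0 * Real.exp (-(Lm * infDist y U))
          ≤ A0 * Real.exp (-(Lm * (L0 + L1 - D)) + -(Lm * Z)) := by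
            refine mul_le_mul_of_nonneg_left (Real.exp_le_exp.2 ?_) hA0.le
            have := mul_le_mul_of_nonneg_left h1 hLm.le
            linarith
        _ = A0 * Real.exp (-(Lm * (L0 + L1 - D))) * Real.exp (-(Lm * Z)) := by
            rw [Real.exp_add, mul_assoc]
        _ ≤ Cx⁻¹ * Real.exp (-(Lm * Z)) :=
            mul_le_mul_of_nonneg_right hL1e (Real.exp_pos _).le)
  -- the bound at time `τ1`
  have hτ1p : 0 < τ1 := by linarith
  have hbd1 : ∀ y, v τ1 y ≤ A' * Real.exp (-(kk * (g - √(a ^ 2 + ‖y - x‖ ^ 2)))) := by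
    intro y
    obtain ⟨Z, hZe⟩ : ∃ Z : ℝ, Z = Q - c1 * τ1 - √(a ^ 2 + ‖y - x‖ ^ 2) := ⟨_, rfl⟩
    have hZe' : Z = g + c1 * s1 - L - L0 - L1 - √(a ^ 2 + ‖y - x‖ ^ 2) := by
      rw [hZe, hqτ, hτ1]
      ring
    have h1 : v τ1 y ≤ Cx * Real.exp (-(kk * Z)) := by
      rcases le_total 0 Z with h | h
      · have h2 := st1 τ1 ⟨hτ1T.le, le_rfl⟩ y (by rw [← hZe]; exact h)
        rw [← hZe] at h2
        have h3 := hp.up Z h
        rw [show 2 * kk / 2 * Z = kk * Z by ring] at h3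
        exact h2.trans h3
      · have h2 := (abs_le.1 (hvM τ1 hτ1p y)).2
        have h3 : 1 ≤ Real.exp (-(kk * Z)) := by
          refine Real.one_le_exp ?_
          have := mul_nonneg hkk.le (neg_nonneg.2 h)
          linarith
        calc v τ1 y ≤ 1 * 1 := by linarith
          _ ≤ Cx * Real.exp (-(kk * Z)) :=
              mul_le_mul hCx h3 zero_le_one (by linarith)
    refine h1.trans ?_
    rw [hA', mul_assoc, ← Real.exp_add]
    refine mul_le_mul_of_nonneg_left (Real.exp_le_exp.2 ?_) (by linarith)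
    rw [hZe']
    have : 0 ≤ kk * (c1 * s1) := by positivity
    linarith
  -- stage 2
  obtain ⟨A2, hA2⟩ : ∃ A2 : ℝ, A2 = A' * Real.exp (-(kk * g) - α2 * τ1) := ⟨_, rfl⟩
  have hA20 : 0 ≤ A2 := by rw [hA2]; positivity
  have hform2 : ∀ τ r : ℝ, A2 * Real.exp (α2 * τ + (2 * kk) / 2 * r)
      = A' * Real.exp (-(kk * g) + α2 * (τ - τ1) + kk * r) := by
    intro τ r
    rw [hA2, mul_assoc, ← Real.exp_add]
    congr 2
    ring
  have st2 := bar rad mp0 hN (F := F) (c := 2 * kk) (m := K) (a := a) (α := α2) (A := A2)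
    (M := 1) (τ0 := τ1) (τ1 := t) (v := v) x (by linarith) hK.le hap hA20 (le_of_eq hα2.symm) hv
    hvM hτ1p (by linarith)
    (by
      intro s hs
      have h1 := (abs_le.1 (hF s 0)).2
      rw [hF0, sub_zero, sub_zero, abs_of_pos hs] at h1
      exact h1)
    (by
      intro y
      rw [hform2, sub_self, mul_zero, add_zero]
      refine (hbd1 y).trans (le_of_eq ?_)
      congr 2
      ring)
  have h1 := st2 t ⟨by linarith, le_rfl⟩ x
  rw [hform2] at h1
  have h2 : √(a ^ 2 + ‖x - x‖ ^ 2) = a := by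
    rw [sub_self, norm_zero, zero_pow two_ne_zero, add_zero]
    exact Real.sqrt_sq hap.le
  rw [h2] at h1
  refine h1.trans ?_
  have h3 := mul_le_mul_of_nonneg_right hCTb (Real.exp_pos (-(kk * g))).le
  refine le_trans (le_of_eq ?_) h3
  rw [mul_assoc, ← Real.exp_add, hτ1]
  congr 2
  ring

end Pool.Agent.H20.RF.TWG
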