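import Pool.Agent.H91.RF.TargetsR

/-!
# MP_609556_an: module TWL, passage to the limit in the decay away from the ignited set
-/

open MeasureTheory Set Filter Topology Metric
open Pool.Agent.H29.TF (hk P)
open Pool.Agent.H91.RD Pool.Agent.H91.RF

namespace Pool.Agent.H20.RF.TWL

/-- time slices of an entire solution are continuous -/
theorem ent_cont {N : ℕ} {f : ℝ → ℝ} {w : ℝ → E N → ℝ} (hw : Ent f w) (t : ℝ) :
    Continuous (w t) := by
  have h := (hw.1 (t - 1)).cont
  rw [continuous_iff_continuousAt]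
  intro x
  have h1 : ContinuousAt (fun p : ℝ × E N => w p.1 p.2) (t, x) := by
    refine h.continuousAt ?_
    exact prod_mem_nhds (Ioi_mem_nhds (by linarith)) univ_mem
  exact h1.comp (f := fun y : E N => (t, y)) (by fun_prop)

theorem main {N : ℕ} {f : ℝ → ℝ} {u : ℝ → E N → ℝ} {a kk ℓ R1 C T : ℝ} (hkk : 0 < kk)
    (hC : 1 ≤ C) (hT : TwP u a kk ℓ R1 C T) {tn : ℕ → ℝ}
    {xn : ℕ → E N} {w : ℝ → E N → ℝ} (htn : Tendsto tn atTop atTop) (hw : Ent f w)
    (hlim : LimAt u tn xn w) (t : ℝ) (x : E N) (hx : a < w t x) :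
    ∃ p ∈ ig w ℓ R1 t, w t x - a ≤ C * Real.exp (-(kk * dist x p)) := by
  have hC0 : 0 < C := by linarith
  have hwc := ent_cont hw t
  -- uniform convergence at time t on balls
  have huni : ∀ R > 0, ∀ ε > 0, ∀ᶠ n in atTop, ∀ y : E N, ‖y‖ ≤ R →
      |u (tn n + t) (xn n + y) - w t y| < ε := by
    intro R hR ε hε
    have h1 := Metric.tendstoUniformlyOn_iff.1 (hlim (max R |t|) (lt_max_of_lt_left hR)) ε hε
    filter_upwards [h1] with n hn y hy
    have h2 := hn (t, y) ⟨⟨?_, ?_⟩, ?_⟩
    · rw [Real.dist_eq, abs_sub_comm] at h2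
      exact h2
    · exact neg_le.1 ((neg_le_abs t).trans (le_max_right _ _))
    · exact (le_abs_self t).trans (le_max_right _ _)
    · rw [mem_closedBall, dist_zero_right]
      exact hy.trans (le_max_left _ _)
  have hev : ∀ᶠ n in atTop, T ≤ tn n + t := by
    filter_upwards [htn.eventually_ge_atTop (T - t)] with n hn
    linarith
  -- almost nearest points of the ignited sets
  have hch : ∀ n, ∃ q : E N, T ≤ tn n + t → (xn n + q ∈ ig u ℓ R1 (tn n + t) ∧
      u (tn n + t) (xn n + x) - a ≤ C * Real.exp (-(kk * (dist x q - 1 / ((n : ℝ) + 1))))) := by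
    intro n
    by_cases hn : T ≤ tn n + t
    · obtain ⟨hne, hb⟩ := hT _ hn
      have hpos : (0 : ℝ) < 1 / ((n : ℝ) + 1) := by positivity
      obtain ⟨p, hp, hd⟩ := (infDist_lt_iff hne).1
        (lt_add_of_pos_right (infDist (xn n + x) (ig u ℓ R1 (tn n + t))) hpos)
      refine ⟨p - xn n, fun _ => ⟨by simpa using hp, (hb (xn n + x)).trans ?_⟩⟩
      have h1 : dist x (p - xn n) = dist (xn n + x) p := by
        rw [dist_eq_norm, dist_eq_norm]
        congr 1
        abel
      rw [h1]
      apply mul_le_mul_of_nonneg_left _ hC0.le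
      apply Real.exp_le_exp.2
      have := mul_le_mul_of_nonneg_left
        (show dist (xn n + x) p - 1 / ((n : ℝ) + 1) ≤ infDist (xn n + x) (ig u ℓ R1 (tn n + t)) by
          linarith) hkk.le
      linarith
    · exact ⟨0, fun h => absurd h hn⟩
  choose q hq using hch
  -- boundedness
  set m : ℝ := (w t x - a) / 2 with hm
  have hm0 : 0 < m := by rw [hm]; linarith
  have hbd : ∀ᶠ n in atTop, q n ∈ closedBall x (Real.log (C / m) / kk + 1) := by
    filter_upwards [hev, huni (‖x‖ + 1) (by positivity) m hm0] with n hn h1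
    have h2 := h1 x (by linarith)
    have h3 := (hq n hn).2
    have h4 : m ≤ C * Real.exp (-(kk * (dist x (q n) - 1 / ((n : ℝ) + 1)))) := by
      have := (abs_lt.1 h2).1
      have h5 : w t x - a = 2 * m := by rw [hm]; ring
      linarith
    have h5 : m / C ≤ Real.exp (-(kk * (dist x (q n) - 1 / ((n : ℝ) + 1)))) := by
      rw [div_le_iff₀ hC0]
      linarith
    have h6 := Real.log_le_log (by positivity) h5
    rw [Real.log_exp] at h6
    have h7 : Real.log (m / C) = -Real.log (C / m) := by
      rw [← Real.log_inv, inv_div]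
    rw [h7] at h6
    have h8 : dist x (q n) - 1 / ((n : ℝ) + 1) ≤ Real.log (C / m) / kk := by
      rw [le_div_iff₀ hkk]
      linarith
    have h9 : (1 : ℝ) / ((n : ℝ) + 1) ≤ 1 := by
      rw [div_le_one (by positivity)]
      have : (0 : ℝ) ≤ n := Nat.cast_nonneg n
      linarith
    rw [mem_closedBall, dist_comm]
    linarith
  obtain ⟨p, -, σ, hσ, hp⟩ :=
    (isCompact_closedBall x (Real.log (C / m) / kk + 1)).tendsto_subseq' hbd.frequently
  have hσt := hσ.tendsto_atTop
  refine ⟨p, ?_, ?_⟩
  · intro y hy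
    have hyn : Tendsto (fun n => y + (q (σ n) - p)) atTop (𝓝 y) := by
      have : Tendsto (fun n => y + (q (σ n) - p)) atTop (𝓝 (y + (p - p))) :=
        tendsto_const_nhds.add (hp.sub tendsto_const_nhds)
      simpa using this
    refine le_of_forall_pos_lt_add fun ε hε => ?_
    have h1 : ∀ᶠ n in atTop, |w t (y + (q (σ n) - p)) - w t y| < ε / 2 := by
      have h2 := (hwc.tendsto y).comp hyn
      have h3 := (Metric.tendsto_nhds.1 h2) (ε / 2) (by positivity)
      filter_upwards [h3] with n hn
      rwa [Real.dist_eq] at hn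
    have h2 : ∀ᶠ n in atTop, ‖y + (q (σ n) - p)‖ ≤ ‖y‖ + 1 := by
      have h3 := (Metric.tendsto_nhds.1 hyn) 1 one_pos
      filter_upwards [h3] with n hn
      rw [dist_eq_norm] at hn
      have := norm_add_le (y + (q (σ n) - p) - y) y
      rw [sub_add_cancel] at this
      linarith
    have h3 := hσt.eventually (huni (‖y‖ + 1) (by positivity) (ε / 2) (by positivity))
    obtain ⟨n, h1, h2, h3, h4⟩ := (h1.and (h2.and (h3.and (hσt.eventually hev)))).exists
    have h5 := h3 _ h2
    have h6 : ℓ ≤ u (tn (σ n) + t) (xn (σ n) + (y + (q (σ n) - p))) := by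
      apply (hq (σ n) h4).1
      rw [mem_closedBall, dist_eq_norm]
      have : xn (σ n) + (y + (q (σ n) - p)) - (xn (σ n) + q (σ n)) = y - p := by abel
      rw [this, ← dist_eq_norm]
      exact hy
    have h7 := (abs_lt.1 h5).2
    have h8 := (abs_lt.1 h1).2
    linarith
  · have h1 : Tendsto (fun n => u (tn (σ n) + t) (xn (σ n) + x) - a) atTop (𝓝 (w t x - a)) := by
      refine Tendsto.sub ?_ tendsto_const_nhds
      rw [Metric.tendsto_nhds]
      intro ε hε
      filter_upwards [hσt.eventually (huni (‖x‖ + 1) (by positivity) ε hε)] with n hn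
      rw [Real.dist_eq]
      exact hn x (by linarith)
    have h2 : Tendsto (fun n => C * Real.exp (-(kk * (dist x (q (σ n)) -
        1 / (((σ n : ℕ) : ℝ) + 1))))) atTop (𝓝 (C * Real.exp (-(kk * (dist x p - 0))))) := by
      refine Tendsto.const_mul _ ((Real.continuous_exp.tendsto _).comp
        (Tendsto.neg (Tendsto.const_mul _ (Tendsto.sub ?_ ?_))))
      · exact tendsto_const_nhds.dist hp
      · exact (tendsto_one_div_add_atTop_nhds_zero_nat (𝕜 := ℝ)).comp hσt
    rw [sub_zero] at h2
    refine le_of_tendsto_of_tendsto h1 h2 ?_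
    filter_upwards [hσt.eventually hev] with n hn
    exact (hq (σ n) hn).2

/-- TWL. -/
theorem twl : T_TWL := by
  intro N f K U u a kk ℓ R1 C T _ hkk hR1 hC hT tn xn w htn hw hlim t
  refine ⟨fun he x => ?_, fun _ x => ?_⟩
  · by_contra hx
    obtain ⟨p, hp, -⟩ := main hkk hC hT htn hw hlim t x (not_le.1 hx)
    rw [he] at hp
    exact hp
  · rcases le_or_gt (w t x) a with hx | hx
    · have : 0 ≤ C * Real.exp (-(kk * infDist x (ig w ℓ R1 t))) := by positivity
      linarith
    · obtain ⟨p, hp, h⟩ := main hkk hC hT htn hw hlim t x hx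
      refine h.trans ?_
      apply mul_le_mul_of_nonneg_left _ (by linarith)
      apply Real.exp_le_exp.2
      have := mul_le_mul_of_nonneg_left (infDist_le_dist_of_mem (x := x) hp) hkk.le
      linarith

end Pool.Agent.H20.RF.TWL
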